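import Pool.Agent.Y911.AA.Main
import Pool.Agent.R909.RandSets
import Pool.Agent.R479.DA.Lim

/-!
# abc triples composed of the primes of a random set

The starting library (`Pool.Agent.Y911.AA.main`) bounds the number of the abc triples of radical at most
`X` with `c ≥ rad (abc) ^ M`, `M > 1 / 3`, by `C X ^ (2/3 - ν)`. By the lemma of Borel and Cantelli only
finitely many of them are composed of the primes of a random set which contains `T` with probability at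
most `C A ^ |T| ∏ p ^ (-θ)`, `θ > 2 / 3 - ν`.
-/

set_option autoImplicit false

namespace Pool.Agent.K3h42.RP

open MeasureTheory Filter

/-- the random set contains the finite set `T` of primes with probability at most
`C A ^ |T| ∏ p ^ (-θ)` -/
def Sparse {Ω : Type} [MeasurableSpace Ω] (P : Measure Ω) (S : Ω → Set ℕ) (θ A C : ℝ) : Prop :=
  ∀ T : Finset ℕ, (∀ p ∈ T, p.Prime) →
    P {ω | (T : Set ℕ) ⊆ S ω} ≤ ENNReal.ofReal (C * ∏ p ∈ T, (A * (p : ℝ) ^ (-θ)))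

/-- the product of the primes dividing `n` -/
def rad (n : ℕ) : ℕ := ∏ p ∈ n.primeFactors, p

theorem rad_pos (n : ℕ) : 0 < rad n :=
  Finset.prod_pos fun _ hp => (Nat.prime_of_mem_primeFactors hp).pos

theorem prod_const_le {A δ : ℝ} (hA : 1 ≤ A) (hδ : 0 < δ) :
    ∃ K : ℝ, 0 ≤ K ∧ ∀ T : Finset ℕ, (∀ p ∈ T, 1 ≤ p) →
      ∏ _p ∈ T, A ≤ K * ∏ p ∈ T, (p : ℝ) ^ δ := by
  have h1 : ∀ᶠ n : ℕ in atTop, A ≤ (n : ℝ) ^ δ :=
    ((tendsto_rpow_atTop hδ).comp tendsto_natCast_atTop_atTop).eventually_ge_atTop A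
  obtain ⟨N, hN⟩ := eventually_atTop.1 h1
  have hA0 : 0 ≤ A := by linarith
  refine ⟨A ^ N, by positivity, fun T hT => ?_⟩
  rw [← Finset.prod_filter_mul_prod_filter_not T (fun p => p < N) (fun _ => A),
    ← Finset.prod_filter_mul_prod_filter_not T (fun p => p < N) (fun p : ℕ => (p : ℝ) ^ δ)]
  have h2 : ∏ _p ∈ T.filter (fun p => p < N), A ≤ A ^ N := by
    rw [Finset.prod_const]
    refine pow_le_pow_right₀ hA ?_
    calc (T.filter (fun p => p < N)).card ≤ (Finset.range N).card :=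
          Finset.card_le_card fun p hp => by simpa using (Finset.mem_filter.1 hp).2
      _ = N := Finset.card_range N
  have h3 : ∏ _p ∈ T.filter (fun p => ¬ p < N), A ≤
      ∏ p ∈ T.filter (fun p => ¬ p < N), (p : ℝ) ^ δ :=
    Finset.prod_le_prod (fun _ _ => hA0) fun p hp => hN p (not_lt.1 (Finset.mem_filter.1 hp).2)
  have h4 : (1 : ℝ) ≤ ∏ p ∈ T.filter (fun p => p < N), (p : ℝ) ^ δ := by
    calc (1 : ℝ) = ∏ p ∈ T.filter (fun p => p < N), (1 : ℝ) := by rw [Finset.prod_const_one]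
      _ ≤ _ := Finset.prod_le_prod (fun _ _ => zero_le_one) fun p hp =>
          Real.one_le_rpow (by exact_mod_cast hT p (Finset.mem_filter.1 hp).1) hδ.le
  have h5 : (0 : ℝ) ≤ ∏ p ∈ T.filter (fun p => ¬ p < N), (p : ℝ) ^ δ :=
    Finset.prod_nonneg fun p _ => by positivity
  have h6 : (0 : ℝ) ≤ ∏ _p ∈ T.filter (fun p => ¬ p < N), A := Finset.prod_nonneg fun _ _ => hA0
  calc (∏ _p ∈ T.filter (fun p => p < N), A) * ∏ _p ∈ T.filter (fun p => ¬ p < N), A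
      ≤ A ^ N * ∏ p ∈ T.filter (fun p => ¬ p < N), (p : ℝ) ^ δ :=
        mul_le_mul h2 h3 h6 (by positivity)
    _ ≤ A ^ N * ((∏ p ∈ T.filter (fun p => p < N), (p : ℝ) ^ δ) *
          ∏ p ∈ T.filter (fun p => ¬ p < N), (p : ℝ) ^ δ) := by
        refine mul_le_mul_of_nonneg_left (le_mul_of_one_le_left h5 h4) (by positivity)

/-- the exceptional triples `(a, b, a + b)`, `a ≤ b`, written `(a, b)` -/
def Exc (M : ℝ) (t : ℕ × ℕ) : Prop :=
  0 < t.1 ∧ t.1 ≤ t.2 ∧ Nat.Coprime t.1 t.2 ∧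
    (rad (t.1 * t.2 * (t.1 + t.2)) : ℝ) ^ M ≤ ((t.1 + t.2 : ℕ) : ℝ)

/-- almost surely only finitely many exceptional triples are composed of primes of the random set -/
theorem core {M : ℝ} (hM : 1 / 3 < M) : ∃ θ₀ : ℝ, 1 / 3 ≤ θ₀ ∧ θ₀ < 2 / 3 ∧
    ∀ θ : ℝ, θ₀ < θ → ∀ {Ω : Type} [MeasurableSpace Ω] (P : Measure Ω) (S : Ω → Set ℕ) (A C : ℝ),
      0 ≤ A → Sparse P S θ A C →
      ∀ᵐ ω ∂P, {t : ℕ × ℕ | Exc M t ∧
        ω ∈ {ω | ((t.1 * t.2 * (t.1 + t.2)).primeFactors : Set ℕ) ⊆ S ω}}.Finite := by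
  obtain ⟨-, -, -, hmain⟩ := Pool.Agent.Y911.AA.main
  obtain ⟨ν, C₁, hν, hC₁, hcount⟩ := hmain M hM
  refine ⟨2 / 3 - min ν (1 / 3), by have := min_le_right ν (1 / 3); linarith,
    by have : 0 < min ν (1 / 3) := lt_min hν (by norm_num)
       linarith, ?_⟩
  intro θ hθ Ω _ P S A C hA hS
  obtain ⟨θ₀, hθ₀⟩ : ∃ θ₀ : ℝ, θ₀ = 2 / 3 - min ν (1 / 3) := ⟨_, rfl⟩
  rw [← hθ₀] at hθ
  have h0 : 1 / 3 ≤ θ₀ := by have := min_le_right ν (1 / 3); linarith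
  have hs : 2 / 3 - ν ≤ θ₀ := by have := min_le_left ν (1 / 3); linarith
  obtain ⟨q, hq⟩ : ∃ q : ℝ, q = (θ + θ₀) / 2 := ⟨_, rfl⟩
  have hq0 : θ₀ < q := by rw [hq]; linarith
  have hδ : 0 < θ - q := by rw [hq]; linarith
  have hsum : Summable fun t : {t : ℕ × ℕ // Exc M t} =>
      (rad (t.1.1 * t.1.2 * (t.1.1 + t.1.2)) : ℝ) ^ (-q) := by
    refine Pool.Agent.R479.DA.summable_heights
      (fun t : {t : ℕ × ℕ // Exc M t} => (rad (t.1.1 * t.1.2 * (t.1.1 + t.1.2)) : ℝ))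
      (fun t => by exact_mod_cast rad_pos _) (s := 2 / 3 - ν) (p := q) (C := C₁)
      (by linarith) (by linarith) (fun X hX => ?_)
    have hmaps : Set.MapsTo Subtype.val
        {t : {t : ℕ × ℕ // Exc M t} | (rad (t.1.1 * t.1.2 * (t.1.1 + t.1.2)) : ℝ) ≤ X}
        (Pool.Agent.Y911.AA.viol M X) := by
      rintro ⟨t, h1, h2, h3, h4⟩ h5
      exact ⟨⟨h1, h2, h3, h5⟩, h4⟩
    have hinj : Set.InjOn Subtype.val
        {t : {t : ℕ × ℕ // Exc M t} | (rad (t.1.1 * t.1.2 * (t.1.1 + t.1.2)) : ℝ) ≤ X} :=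
      Subtype.val_injective.injOn
    have hfin : (Pool.Agent.Y911.AA.viol M X).Finite :=
      (Pool.Agent.Y911.AA.triples_finite' X).subset fun t ht => ht.1
    refine ⟨hfin.of_injOn hmaps hinj, ?_⟩
    have h3 := Set.ncard_le_ncard_of_injOn _ hmaps hinj hfin
    exact le_trans (by exact_mod_cast h3) (hcount X hX)
  obtain ⟨K, hK, hprod⟩ := prod_const_le (A := max A 1) (le_max_right _ _) hδ
  refine (Pool.Agent.R909.RS.main_subtype (T := ℕ × ℕ) (Q := Exc M)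
    (H := fun t => (rad (t.1 * t.2 * (t.1 + t.2)) : ℝ))
    (E := fun t => {ω | ((t.1 * t.2 * (t.1 + t.2)).primeFactors : Set ℕ) ⊆ S ω})
    (C := |C| * K) (q := q) (p := q) (η := 0) (fun t _ => by exact_mod_cast rad_pos _)
    (fun t _ => ?_) le_rfl (by linarith) hsum).1
  obtain ⟨T, hT⟩ : ∃ T, T = (t.1 * t.2 * (t.1 + t.2)).primeFactors := ⟨_, rfl⟩
  have hTp : ∀ p ∈ T, p.Prime := fun p hp => by
    rw [hT] at hp
    exact Nat.prime_of_mem_primeFactors hp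
  have hrad : (rad (t.1 * t.2 * (t.1 + t.2)) : ℝ) ^ (-q) = ∏ p ∈ T, (p : ℝ) ^ (-q) := by
    unfold rad
    rw [← hT, Nat.cast_prod, Real.finsetProd_rpow _ _ (fun p _ => Nat.cast_nonneg p)]
  refine (hS _ (by rw [← hT]; exact hTp)).trans (ENNReal.ofReal_le_ofReal ?_)
  rw [hrad, ← hT]
  have e1 : ∏ p ∈ T, (A * (p : ℝ) ^ (-θ)) ≤ ∏ p ∈ T, (max A 1 * (p : ℝ) ^ (-θ)) :=
    Finset.prod_le_prod (fun p _ => by positivity) fun p _ =>
      mul_le_mul_of_nonneg_right (le_max_left _ _) (by positivity)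
  have e2 : ∏ p ∈ T, (max A 1 * (p : ℝ) ^ (-θ)) = (∏ _p ∈ T, max A 1) * ∏ p ∈ T, (p : ℝ) ^ (-θ) :=
    Finset.prod_mul_distrib
  have e3 := hprod T fun p hp => (hTp p hp).one_le
  have e4 : (∏ p ∈ T, (p : ℝ) ^ (θ - q)) * ∏ p ∈ T, (p : ℝ) ^ (-θ) = ∏ p ∈ T, (p : ℝ) ^ (-q) := by
    rw [← Finset.prod_mul_distrib]
    refine Finset.prod_congr rfl fun p hp => ?_
    rw [← Real.rpow_add (by exact_mod_cast (hTp p hp).pos)]
    congr 1
    ring
  have e5 : (0 : ℝ) ≤ ∏ p ∈ T, (p : ℝ) ^ (-θ) := Finset.prod_nonneg fun p _ => by positivity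
  have e6 : (0 : ℝ) ≤ ∏ p ∈ T, (A * (p : ℝ) ^ (-θ)) := Finset.prod_nonneg fun p _ => by positivity
  calc C * ∏ p ∈ T, (A * (p : ℝ) ^ (-θ)) ≤ |C| * ∏ p ∈ T, (A * (p : ℝ) ^ (-θ)) :=
        mul_le_mul_of_nonneg_right (le_abs_self C) e6
    _ ≤ |C| * ((∏ _p ∈ T, max A 1) * ∏ p ∈ T, (p : ℝ) ^ (-θ)) := by
        rw [← e2]
        exact mul_le_mul_of_nonneg_left e1 (abs_nonneg C)
    _ ≤ |C| * ((K * ∏ p ∈ T, (p : ℝ) ^ (θ - q)) * ∏ p ∈ T, (p : ℝ) ^ (-θ)) :=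
        mul_le_mul_of_nonneg_left (mul_le_mul_of_nonneg_right e3 e5) (abs_nonneg C)
    _ = |C| * K * ∏ p ∈ T, (p : ℝ) ^ (-q) := by rw [← e4]; ring

end Pool.Agent.K3h42.RP
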