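import Mathlib
import Pool.Agent.K3h42.RP.Core

/-!
# Independent random sets of primes
-/

set_option autoImplicit false

namespace Pool.Agent.K3h42.RP

open MeasureTheory Filter ProbabilityTheory
open scoped ENNReal

/-- independent events with probabilities at most `A p ^ (-θ)` -/
theorem sparse_of_indep {Ω : Type} [MeasurableSpace Ω] {P : Measure Ω} {S : Ω → Set ℕ} {θ A : ℝ}
    (hA : 0 ≤ A) (hm : ∀ p : ℕ, MeasurableSet {ω | p ∈ S ω})
    (hi : iIndepSet (fun p : ℕ => {ω | p ∈ S ω}) P)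
    (hp : ∀ p : ℕ, p.Prime → P {ω | p ∈ S ω} ≤ ENNReal.ofReal (A * (p : ℝ) ^ (-θ))) :
    Sparse P S θ A 1 := by
  intro T hT
  have h1 : {ω | (T : Set ℕ) ⊆ S ω} = ⋂ p ∈ T, {ω | p ∈ S ω} := by
    ext ω
    simp only [Set.mem_ofPred_eq, Set.mem_iInter]
    exact ⟨fun h p hp => h (Finset.mem_coe.2 hp), fun h p hp => h p (Finset.mem_coe.1 hp)⟩
  rw [h1, (iIndepSet_iff_meas_biInter hm).1 hi T, one_mul,
    ENNReal.ofReal_prod_of_nonneg (fun p _ => by positivity)]
  exact Finset.prod_le_prod' fun p hpT => hp p (hT p hpT)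

/-- independent events with probabilities at least `p ^ (-θ)`, `θ ≤ 1`: the set is almost surely
infinite -/
theorem infinite_of_indep {Ω : Type} [MeasurableSpace Ω] {P : Measure Ω} [IsProbabilityMeasure P]
    {S : Ω → Set ℕ} {θ : ℝ} (hθ : θ ≤ 1) (hm : ∀ p : ℕ, MeasurableSet {ω | p ∈ S ω})
    (hi : iIndepSet (fun p : ℕ => {ω | p ∈ S ω}) P)
    (hp : ∀ p : ℕ, p.Prime → ENNReal.ofReal ((p : ℝ) ^ (-θ)) ≤ P {ω | p ∈ S ω}) :
    ∀ᵐ ω ∂P, (S ω).Infinite := by
  have hsum : (∑' p : ℕ, P {ω | p ∈ S ω}) = ∞ := by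
    by_contra hcon
    have h1 : Summable fun p : ℕ => (P {ω | p ∈ S ω}).toReal := ENNReal.summable_toReal hcon
    have h2 : Summable (Set.indicator {p : ℕ | p.Prime} (fun n : ℕ => (1 : ℝ) / n)) := by
      refine Summable.of_nonneg_of_le (fun n => ?_) (fun n => ?_) h1
      · exact Set.indicator_nonneg (fun n _ => by positivity) n
      · by_cases hn : n.Prime
        · rw [Set.indicator_of_mem (show n ∈ {p : ℕ | p.Prime} from hn)]
          have h3 := hp n hn
          have hn1 : (1 : ℝ) ≤ n := by exact_mod_cast hn.one_le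
          have h4 : (1 : ℝ) / n ≤ (n : ℝ) ^ (-θ) := by
            rw [one_div, ← Real.rpow_neg_one]
            exact Real.rpow_le_rpow_of_exponent_le hn1 (by linarith)
          refine h4.trans ?_
          have h5 := ENNReal.toReal_mono (measure_ne_top P _) h3
          rwa [ENNReal.toReal_ofReal (by positivity)] at h5
        · rw [Set.indicator_of_notMem (show n ∉ {p : ℕ | p.Prime} from hn)]
          exact ENNReal.toReal_nonneg
    exact not_summable_one_div_on_primes h2
  have h := measure_limsup_eq_one hm hi hsum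
  have h2 : limsup (fun p : ℕ => {ω | p ∈ S ω}) atTop ∈ ae P :=
    (mem_ae_iff_prob_eq_one (MeasurableSet.measurableSet_limsup hm)).2 h
  filter_upwards [h2] with ω hω
  rw [mem_limsup_iff_frequently_mem] at hω
  exact Nat.frequently_atTop_iff_infinite.1 hω

end Pool.Agent.K3h42.RP
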