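import Pool.Agent.K3h42.RP.Core

/-!
# The numerator of `z + 1` for rational numbers `z` composed of primes of a random set
-/

set_option autoImplicit false

namespace Pool.Agent.K3h42.RP

open MeasureTheory Filter

theorem rad_le {n : ℕ} (hn : n ≠ 0) : rad n ≤ n :=
  Nat.le_of_dvd (Nat.pos_of_ne_zero hn) (Nat.prod_primeFactors_dvd n)

theorem rad_mul_le {m n : ℕ} (hm : m ≠ 0) (hn : n ≠ 0) : rad (m * n) ≤ rad m * rad n := by
  unfold rad
  rw [Nat.primeFactors_mul hm hn]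
  have h := Finset.prod_union_inter (s₁ := m.primeFactors) (s₂ := n.primeFactors) (f := fun p : ℕ => p)
  have h1 : 1 ≤ ∏ p ∈ m.primeFactors ∩ n.primeFactors, p :=
    Finset.prod_pos fun p hp => (Nat.prime_of_mem_primeFactors (Finset.mem_inter.1 hp).1).pos
  calc ∏ p ∈ m.primeFactors ∪ n.primeFactors, p
      ≤ (∏ p ∈ m.primeFactors ∪ n.primeFactors, p) * ∏ p ∈ m.primeFactors ∩ n.primeFactors, p :=
        Nat.le_mul_of_pos_right _ h1
    _ = _ := h

theorem log_rad (n : ℕ) : Real.log (rad n : ℝ) = ∑ p ∈ n.primeFactors, Real.log (p : ℝ) := by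
  unfold rad
  rw [Nat.cast_prod, Real.log_prod]
  intro p hp
  exact_mod_cast (Nat.prime_of_mem_primeFactors hp).ne_zero

/-- the numerator and the denominator of `z + 1` -/
theorem add_one (z : ℚ) : (z + 1).num = z.num + z.den ∧ (z + 1).den = z.den := by
  have hd : (z.den : ℤ) ≠ 0 := by exact_mod_cast z.den_ne_zero
  have h1 : z + 1 = ((z.num + z.den : ℤ) : ℚ) / ((z.den : ℤ) : ℚ) := by
    have h2 : (z.den : ℚ) ≠ 0 := by exact_mod_cast z.den_ne_zero
    push_cast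
    rw [add_div, div_self h2, Rat.num_div_den]
  have hc : Nat.Coprime (z.num + z.den : ℤ).natAbs (z.den : ℤ).natAbs := by
    rw [Int.natAbs_natCast]
    have h3 : IsCoprime z.num (z.den : ℤ) := by
      rw [Int.isCoprime_iff_gcd_eq_one]
      exact z.reduced
    have h4 : IsCoprime (z.num + z.den) (z.den : ℤ) := by
      have := (IsCoprime.add_mul_right_left h3 1)
      simpa using this
    rw [Int.isCoprime_iff_gcd_eq_one] at h4
    exact h4
  constructor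
  · rw [h1]
    exact Rat.num_div_eq_of_coprime (by exact_mod_cast z.pos) hc
  · have h5 := Rat.den_div_eq_of_coprime (a := (z.num + z.den : ℤ)) (b := (z.den : ℤ))
      (by exact_mod_cast z.pos) hc
    rw [← h1] at h5
    exact_mod_cast h5

/-- the triple of a rational number -/
theorem exists_triple {z : ℚ} (h0 : z ≠ 0) (h1 : z ≠ -1) : ∃ t : ℕ × ℕ,
    0 < t.1 ∧ t.1 ≤ t.2 ∧ Nat.Coprime t.1 t.2 ∧
    t.1 * t.2 * (t.1 + t.2) = z.num.natAbs * z.den * (z + 1).num.natAbs ∧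
    z.num.natAbs ≤ t.1 + t.2 ∧ z.den ≤ t.1 + t.2 ∧ (z + 1).num.natAbs ≤ t.1 + t.2 := by
  obtain ⟨hn, -⟩ := add_one z
  have hc : Nat.Coprime z.num.natAbs z.den := z.reduced
  have ha : 0 < z.num.natAbs := Int.natAbs_pos.2 (Rat.num_ne_zero.2 h0)
  have hb : 0 < z.den := z.pos
  have hz1 : z + 1 ≠ 0 := fun h => h1 (eq_neg_of_add_eq_zero_left h)
  have hcc : 0 < (z + 1).num.natAbs := Int.natAbs_pos.2 (Rat.num_ne_zero.2 hz1)
  obtain ⟨a, hadef⟩ : ∃ a, a = z.num.natAbs := ⟨_, rfl⟩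
  obtain ⟨b, hbdef⟩ : ∃ b, b = z.den := ⟨_, rfl⟩
  obtain ⟨c, hcdef⟩ : ∃ c, c = (z + 1).num.natAbs := ⟨_, rfl⟩
  rw [← hadef, ← hbdef] at hc
  rw [← hadef] at ha
  rw [← hbdef] at hb
  rw [← hcdef] at hcc
  have hcases : a + b = c ∨ b + c = a ∨ a + c = b := by
    rw [hadef, hbdef, hcdef, hn]
    omega
  rw [← hadef, ← hbdef, ← hcdef]
  -- the general construction
  have key : ∀ x y w : ℕ, 0 < x → 0 < y → Nat.Coprime x y → x + y = w →
      ∃ t : ℕ × ℕ, 0 < t.1 ∧ t.1 ≤ t.2 ∧ Nat.Coprime t.1 t.2 ∧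
        t.1 * t.2 * (t.1 + t.2) = x * y * w ∧ x ≤ t.1 + t.2 ∧ y ≤ t.1 + t.2 ∧ w ≤ t.1 + t.2 := by
    intro x y w hx hy hxy hw
    rcases le_total x y with h | h
    · exact ⟨(x, y), hx, h, hxy, by rw [hw], by simp only; omega, by simp only; omega,
        by simp only; omega⟩
    · refine ⟨(y, x), hy, h, hxy.symm, ?_, by simp only; omega, by simp only; omega,
        by simp only; omega⟩
      simp only
      rw [← hw]
      ring
  rcases hcases with h | h | h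
  · exact key a b c ha hb hc h
  · have hbc : Nat.Coprime b c := by
      have h2 : Nat.Coprime b (b + c) := by rw [h]; exact hc.symm
      exact Nat.coprime_self_add_right.1 h2
    obtain ⟨t, t1, t2, t3, t4, t5, t6, t7⟩ := key b c a hb hcc hbc h
    exact ⟨t, t1, t2, t3, by rw [t4]; ring, t7, t5, t6⟩
  · have hac : Nat.Coprime a c := by
      have h2 : Nat.Coprime a (a + c) := by rw [h]; exact hc
      exact Nat.coprime_self_add_right.1 h2
    obtain ⟨t, t1, t2, t3, t4, t5, t6, t7⟩ := key a c b ha hcc hac h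
    exact ⟨t, t1, t2, t3, by rw [t4]; ring, t5, t7, t6⟩

/-- the bound for the numerator of `z + 1` -/
theorem rat_core {ε : ℝ} (hε : 0 < ε) : ∃ θ₀ : ℝ, 1 / 3 ≤ θ₀ ∧ θ₀ < 2 / 3 ∧
    ∀ θ : ℝ, θ₀ < θ → ∀ {Ω : Type} [MeasurableSpace Ω] (P : Measure Ω) (S : Ω → Set ℕ) (A C : ℝ),
      0 ≤ A → Sparse P S θ A C →
      ∀ᵐ ω ∂P, ∃ β : ℝ, 0 ≤ β ∧ ∀ z : ℚ, z ≠ 0 → z ≠ -1 →
        (∀ p : ℕ, p.Prime → p ∣ z.num.natAbs * z.den * (z + 1).num.natAbs → p ∈ S ω) →
        Real.log ((z + 1).num.natAbs : ℝ) ≤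
          (1 + ε) * (β + ∑ p ∈ (z + 1).num.natAbs.primeFactors, Real.log (p : ℝ)) := by
  obtain ⟨M, hMdef⟩ : ∃ M : ℝ, M = (1 + ε) / (3 + 2 * ε) := ⟨_, rfl⟩
  have hd : 0 < 3 + 2 * ε := by linarith
  have hM : 1 / 3 < M := by
    rw [hMdef, div_lt_div_iff₀ (by norm_num) hd]
    linarith
  have hM0 : 0 < M := by linarith
  have hrel : M = (1 + ε) * (1 - 2 * M) := by
    rw [hMdef]
    field_simp
    ring
  have h12 : 0 < 1 - 2 * M := by
    by_contra hcon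
    push Not at hcon
    nlinarith
  obtain ⟨θ₀, h1, h2, h3⟩ := core hM
  refine ⟨θ₀, h1, h2, fun θ hθ Ω _ P S A C hA hS => ?_⟩
  filter_upwards [h3 θ hθ P S A C hA hS] with ω hω
  refine ⟨∑ t ∈ hω.toFinset, Real.log ((t.1 + t.2 : ℕ) : ℝ),
    Finset.sum_nonneg fun t _ => Real.log_natCast_nonneg _, fun z hz0 hz1 hz => ?_⟩
  obtain ⟨t, t1, t2, t3, t4, t5, t6, t7⟩ := exists_triple hz0 hz1
  have hzz : z + 1 ≠ 0 := fun h => hz1 (eq_neg_of_add_eq_zero_left h)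
  have hc0 : 0 < (z + 1).num.natAbs := Int.natAbs_pos.2 (Rat.num_ne_zero.2 hzz)
  have ha0 : 0 < z.num.natAbs := Int.natAbs_pos.2 (Rat.num_ne_zero.2 hz0)
  have hb0 : 0 < z.den := z.pos
  have hlogc : Real.log ((z + 1).num.natAbs : ℝ) ≤ Real.log ((t.1 + t.2 : ℕ) : ℝ) :=
    Real.log_le_log (by exact_mod_cast hc0) (by exact_mod_cast t7)
  have hnn : 0 ≤ ∑ t ∈ hω.toFinset, Real.log ((t.1 + t.2 : ℕ) : ℝ) :=
    Finset.sum_nonneg fun t _ => Real.log_natCast_nonneg _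
  have hrn : 0 ≤ ∑ p ∈ (z + 1).num.natAbs.primeFactors, Real.log (p : ℝ) :=
    Finset.sum_nonneg fun p _ => Real.log_natCast_nonneg _
  by_cases hexc : Exc M t
  · have hmem : t ∈ hω.toFinset := by
      rw [Set.Finite.mem_toFinset]
      refine ⟨hexc, ?_⟩
      intro p hp
      rw [Finset.mem_coe, t4] at hp
      exact hz p (Nat.prime_of_mem_primeFactors hp) (Nat.dvd_of_mem_primeFactors hp)
    have h5 : Real.log ((t.1 + t.2 : ℕ) : ℝ) ≤ ∑ t ∈ hω.toFinset, Real.log ((t.1 + t.2 : ℕ) : ℝ) :=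
      Finset.single_le_sum (f := fun t : ℕ × ℕ => Real.log ((t.1 + t.2 : ℕ) : ℝ))
        (fun t _ => Real.log_natCast_nonneg _) hmem
    nlinarith
  · have h5 : ((t.1 + t.2 : ℕ) : ℝ) < (rad (t.1 * t.2 * (t.1 + t.2)) : ℝ) ^ M := by
      by_contra hcon
      exact hexc ⟨t1, t2, t3, not_lt.1 hcon⟩
    have hs0 : 0 < t.1 + t.2 := by omega
    have hsR : (0 : ℝ) < ((t.1 + t.2 : ℕ) : ℝ) := by exact_mod_cast hs0
    have hrR : (0 : ℝ) < (rad (t.1 * t.2 * (t.1 + t.2)) : ℝ) := by exact_mod_cast rad_pos _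
    have h6 := Real.log_lt_log hsR h5
    rw [Real.log_rpow hrR] at h6
    have h7 : rad (t.1 * t.2 * (t.1 + t.2)) ≤ (t.1 + t.2) * (t.1 + t.2) * rad (z + 1).num.natAbs := by
      rw [t4]
      calc rad (z.num.natAbs * z.den * (z + 1).num.natAbs)
          ≤ rad (z.num.natAbs * z.den) * rad (z + 1).num.natAbs :=
            rad_mul_le (Nat.mul_pos ha0 hb0).ne' hc0.ne'
        _ ≤ (z.num.natAbs * z.den) * rad (z + 1).num.natAbs :=
            Nat.mul_le_mul_right _ (rad_le (Nat.mul_pos ha0 hb0).ne')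
        _ ≤ (t.1 + t.2) * (t.1 + t.2) * rad (z + 1).num.natAbs :=
            Nat.mul_le_mul_right _ (Nat.mul_le_mul t5 t6)
    have h8 : Real.log (rad (t.1 * t.2 * (t.1 + t.2)) : ℝ) ≤
        2 * Real.log ((t.1 + t.2 : ℕ) : ℝ) + Real.log (rad (z + 1).num.natAbs : ℝ) := by
      have hr0 : (0 : ℝ) < (rad (z + 1).num.natAbs : ℝ) := by exact_mod_cast rad_pos _
      have h9 : Real.log (rad (t.1 * t.2 * (t.1 + t.2)) : ℝ) ≤
          Real.log (((t.1 + t.2 : ℕ) : ℝ) * ((t.1 + t.2 : ℕ) : ℝ) * (rad (z + 1).num.natAbs : ℝ)) :=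
        Real.log_le_log hrR (by exact_mod_cast h7)
      rw [Real.log_mul (by positivity) hr0.ne', Real.log_mul hsR.ne' hsR.ne'] at h9
      linarith
    rw [log_rad (z + 1).num.natAbs] at h8
    have h9 := mul_le_mul_of_nonneg_left h8 hM0.le
    obtain ⟨s, hs⟩ : ∃ s, s = Real.log ((t.1 + t.2 : ℕ) : ℝ) := ⟨_, rfl⟩
    obtain ⟨r, hr⟩ : ∃ r, r = ∑ p ∈ (z + 1).num.natAbs.primeFactors, Real.log (p : ℝ) := ⟨_, rfl⟩
    rw [← hs, ← hr] at h9
    rw [← hs] at h6 hlogc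
    rw [← hr]
    rw [← hr] at hrn
    have h10 : (1 - 2 * M) * s < M * r := by linarith
    have h11 : (1 - 2 * M) * s < (1 - 2 * M) * ((1 + ε) * r) := by
      calc (1 - 2 * M) * s < M * r := h10
        _ = ((1 + ε) * (1 - 2 * M)) * r := by rw [← hrel]
        _ = _ := by ring
    have h12' : s < (1 + ε) * r := lt_of_mul_lt_mul_left h11 h12.le
    have h13 : (1 + ε) * r ≤ (1 + ε) * ((∑ t ∈ hω.toFinset, Real.log ((t.1 + t.2 : ℕ) : ℝ)) + r) :=
      mul_le_mul_of_nonneg_left (by linarith) (by linarith)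
    linarith

end Pool.Agent.K3h42.RP
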